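import Mathlib

open MeasureTheory Filter Topology Real Finset
open scoped ContDiff

namespace Pool.Agent.Results.MP_794bd6_an.Cycles

abbrev T := Circle × Circle

/-- Entropy of the partition into `P`-names of length `n`. -/
noncomputable def Hn [MeasurableSpace T] (f : T → T) (μ : Measure T) {k : ℕ} (P : T → Fin k) (n : ℕ) : ℝ :=
  ∑ w : Fin n → Fin k, negMulLog (μ.real {x | ∀ i : Fin n, P (f^[i] x) = w i})

/-- Kolmogorov-Sinai entropy. -/
noncomputable def ks [MeasurableSpace T] (f : T → T) (μ : Measure T) : EReal :=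
  ⨆ (k : ℕ) (P : T → Fin k) (_ : Measurable P),
    limsup (fun n : ℕ => ((Hn f μ P n / n : ℝ) : EReal)) atTop

/-- The covering map of the flat torus. -/
noncomputable def pr (x : ℝ × ℝ) : T := (Circle.exp x.1, Circle.exp x.2)

/-- Norm of the map induced on the exterior algebra of the plane. -/
noncomputable def ext (A : ℝ × ℝ →L[ℝ] ℝ × ℝ) : ℝ := max 1 (max ‖A‖ |A.det|)

/-- Lower growth rate of the exterior derivative cocycle. -/
noncomputable def chi (F : ℝ × ℝ → ℝ × ℝ) (x : ℝ × ℝ) : EReal :=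
  liminf (fun n : ℕ => ((log (ext (fderiv ℝ F^[n] x)) / n : ℝ) : EReal)) atTop

lemma tri {a : ℝ} (h : |a| ≤ 1 / 4) : |sin a - a| ≤ |a| * a ^ 2 / 5 ∧ cos a ≤ 1 - a ^ 2 / 4 ∧
    1 - a ^ 2 / 2 ≤ cos a ∧ a ^ 2 ≤ 1 / 16 := by
  have p := sin_bound (h.trans (by norm_num))
  have q := abs_le.1 (cos_bound (h.trans (by norm_num)))
  have r : a ^ 2 ≤ 1 / 16 := by rw [← sq_abs]; nlinarith [abs_nonneg a]
  have e : |a| ^ 4 = a ^ 2 * a ^ 2 := by rw [← sq_abs]; ring
  refine ⟨?_, by nlinarith [sq_nonneg a], one_sub_sq_div_two_le_cos, r⟩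
  have := abs_add_le (sin a - (a - a ^ 3 / 6)) (-(a ^ 3 / 6))
  rw [abs_neg, abs_div, abs_pow, show sin a - (a - a ^ 3 / 6) + -(a ^ 3 / 6) = sin a - a by ring] at this
  rw [← sq_abs] at r ⊢
  simp only [Nat.abs_ofNat] at this
  nlinarith [pow_nonneg (abs_nonneg a) 3]

lemma key {k s t : ℝ} (hk : |k| ≤ 1) (hs : |s| ≤ 1) (ht : |t| ≤ 1 / 4) :
    |s * cos (t * s) + k * sin (t * s)| ≤ |s| * (1 + t * k - (t * s) ^ 2 / 8) := by
  have a : |t * s| ≤ |s| / 4 := by rw [abs_mul]; nlinarith [abs_nonneg s]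
  obtain ⟨p, q, r, u⟩ := tri (a.trans (by linarith) : |t * s| ≤ 1 / 4)
  have b : |t * k| ≤ 1 / 4 := by rw [abs_mul]; nlinarith [abs_nonneg t, abs_nonneg k]
  have := abs_add_le (s * (cos (t * s) + t * k)) (k * (sin (t * s) - t * s))
  rw [abs_mul, abs_mul, abs_of_nonneg (a := cos _ + _) (by linarith [(abs_le.1 b).1])] at this
  have c : |k| * |sin (t * s) - t * s| ≤ 1 * (|s| / 4 * (t * s) ^ 2 / 5) := by
    gcongr; exact p.trans (by gcongr)
  refine le_trans (le_of_eq (by congr 1; ring)) (this.trans ?_)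
  nlinarith [mul_le_mul_of_nonneg_left q (abs_nonneg s), mul_nonneg (abs_nonneg s) (sq_nonneg (t * s))]

lemma key' {c a : ℝ} (hc : |c| ≤ 1) (h : |a| ≤ 1 / 4) : c + a ^ 2 ≤ c * cos a + 4 * a * sin a := by
  obtain ⟨p, q, r, u⟩ := tri h
  have : |a * (sin a - a)| ≤ 1 / 4 * (1 * a ^ 2 / 5) := by
    rw [abs_mul]; gcongr; exact p.trans (by gcongr; linarith)
  nlinarith [abs_le.1 this, abs_le.1 hc, cos_le_one a]

lemma lyap [MeasurableSpace T] {f : T → T} {ρ : Measure T} (hf : MeasurePreserving f ρ ρ) {W : T → ℝ}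
    (i : Integrable W ρ) (h : ∀ x, W x ≤ W (f x)) : ∀ᵐ x ∂ρ, W (f x) = W x := by
  have j : Integrable (fun x => W (f x)) ρ := (hf.integrable_comp i.1).2 i
  refine ((integral_eq_iff_of_ae_le i j (.of_forall h)).1 ?_).symm
  rw [← integral_map hf.aemeasurable (by rw [hf.map_eq]; exact i.1), hf.map_eq]

noncomputable def f (z : T) : T :=
  (z.1 * Circle.exp (1 / 4 * (z.2 : ℂ).re * (z.1 : ℂ).im),
    z.2 * Circle.exp (-(1 / 4) * (z.1 : ℂ).re * (z.2 : ℂ).im))

lemma fix [MeasurableSpace T] [BorelSpace T] {ρ : Measure T} [IsProbabilityMeasure ρ] (hf : MeasurePreserving f ρ ρ) :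
    ∀ᵐ z ∂ρ, (z.2 : ℂ).re * (z.1 : ℂ).im = 0 ∧ (z.1 : ℂ).re * (z.2 : ℂ).im = 0 := by
  have re (z : Circle) : |(z : ℂ).re| ≤ 1 := (Complex.abs_re_le_norm _).trans z.norm_coe.le
  have im (z : Circle) : |(z : ℂ).im| ≤ 1 := (Complex.abs_im_le_norm _).trans z.norm_coe.le
  have i (W : T → ℝ) (h : Continuous W) : Integrable W ρ :=
    h.integrable_of_hasCompactSupport (.of_compactSpace _)
  have q (c : ℝ) (hc : |c| = 1 / 4) (x : ℝ) (h : |x| ≤ 1) : |c * x| ≤ 1 / 4 := by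
    rw [abs_mul, hc]; linarith
  have q' (x y : ℝ) (h : |x| ≤ 1 / 4) (k : |y| ≤ 1) : |x * y| ≤ 1 / 4 := by
    rw [abs_mul]; nlinarith [abs_nonneg x, abs_nonneg y]
  have q1 := q (1 / 4) (by norm_num [abs_of_pos])
  have q2 := q (-(1 / 4)) (by norm_num [abs_of_pos])
  have a (z : T) : |((f z).1 : ℂ).im| * |((f z).2 : ℂ).im| ≤ |(z.1 : ℂ).im| * |(z.2 : ℂ).im| *
      (1 - (((z.2 : ℂ).re * (z.1 : ℂ).im) ^ 2 + ((z.1 : ℂ).re * (z.2 : ℂ).im) ^ 2) / 256) := by
    have u := key (re z.1) (im z.1) (q1 _ (re z.2))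
    have v := key (re z.2) (im z.2) (q2 _ (re z.1))
    have s := abs_le.1 (q' _ _ (q1 _ (re z.2)) (re z.1))
    have p := (tri (q' _ _ (q1 _ (re z.2)) (im z.1))).2.2.2
    have r := (tri (q' _ _ (q2 _ (re z.1)) (im z.2))).2.2.2
    refine le_trans (le_of_eq ?_) ((mul_le_mul u v (abs_nonneg _) ((abs_nonneg _).trans u)).trans ?_)
    · simp only [f, Circle.coe_mul, Circle.coe_exp, Complex.mul_im, Complex.exp_ofReal_mul_I_re,
        Complex.exp_ofReal_mul_I_im, add_comm]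
    rw [mul_mul_mul_comm]
    gcongr
    generalize (z.1 : ℂ).re = k at *; generalize (z.2 : ℂ).re = c at *
    generalize (z.1 : ℂ).im = x at *; generalize (z.2 : ℂ).im = y at *
    nlinarith [sq_nonneg (c * k), sq_nonneg (c * x), sq_nonneg (k * y)]
  have b (z : T) (h : (z.1 : ℂ).im = 0) : ((f z).1 : ℂ).im = 0 ∧ (z.1 : ℂ).re * (z.2 : ℂ).re +
      (-(1 / 4) * (z.1 : ℂ).re * (z.2 : ℂ).im) ^ 2 ≤ ((f z).1 : ℂ).re * ((f z).2 : ℂ).re := by
    refine ⟨by simp [f, h], (key' (by rw [abs_mul]; exact mul_le_one₀ (re _) (abs_nonneg _) (re _))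
      (q' _ _ (q2 _ (re z.1)) (im z.2))).trans_eq ?_⟩
    simp only [f, Circle.coe_mul, Circle.coe_exp, Complex.mul_re, Complex.exp_ofReal_mul_I_re,
      Complex.exp_ofReal_mul_I_im, h, mul_zero, cos_zero, sin_zero]; ring
  have c (z : T) (h : (z.2 : ℂ).im = 0) : ((f z).2 : ℂ).im = 0 ∧ -((z.1 : ℂ).re * (z.2 : ℂ).re) +
      (1 / 4 * (z.2 : ℂ).re * (z.1 : ℂ).im) ^ 2 ≤ -(((f z).1 : ℂ).re * ((f z).2 : ℂ).re) := by
    refine ⟨by simp [f, h], (key' (by
      rw [abs_neg, abs_mul]; exact mul_le_one₀ (re _) (abs_nonneg _) (re _))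
      (q' _ _ (q1 _ (re z.2)) (im z.1))).trans_eq ?_⟩
    simp only [f, Circle.coe_mul, Circle.coe_exp, Complex.mul_re, Complex.exp_ofReal_mul_I_re,
      Complex.exp_ofReal_mul_I_im, h, mul_zero, cos_zero, sin_zero]; ring
  have r (z : T) := abs_le.1 (show |(z.1 : ℂ).re * (z.2 : ℂ).re| ≤ 1 by
    rw [abs_mul]; exact mul_le_one₀ (re _) (abs_nonneg _) (re _))
  filter_upwards [lyap hf (i (fun z => -(|(z.1 : ℂ).im| * |(z.2 : ℂ).im|)) (by fun_prop)) fun z =>
      neg_le_neg ((a z).trans (mul_le_of_le_one_right (by positivity) (sub_le_self _ (by positivity)))),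
    lyap hf ((i (fun z => 1 + (z.1 : ℂ).re * (z.2 : ℂ).re) (by fun_prop)).indicator
      (s := {z | (z.1 : ℂ).im = 0}) (isClosed_eq (by fun_prop) continuous_const).measurableSet) fun z => by
        by_cases h : (z.1 : ℂ).im = 0
        · simp only [Set.indicator, Set.mem_ofPred_eq, h, (b z h).1, if_true]
          nlinarith [(b z h).2]
        · simp only [Set.indicator, Set.mem_ofPred_eq, h, if_false]
          split_ifs <;> linarith [r (f z)],
    lyap hf ((i (fun z => 1 - (z.1 : ℂ).re * (z.2 : ℂ).re) (by fun_prop)).indicator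
      (s := {z | (z.2 : ℂ).im = 0}) (isClosed_eq (by fun_prop) continuous_const).measurableSet) fun z => by
        by_cases h : (z.2 : ℂ).im = 0
        · simp only [Set.indicator, Set.mem_ofPred_eq, h, (c z h).1, if_true]
          nlinarith [(c z h).2]
        · simp only [Set.indicator, Set.mem_ofPred_eq, h, if_false]
          split_ifs <;> linarith [r (f z)]] with z u v w
  by_cases h : (z.1 : ℂ).im = 0
  · simp only [Set.indicator, Set.mem_ofPred_eq, h, (b z h).1, if_true] at v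
    exact ⟨by simp [h], pow_eq_zero_iff two_ne_zero |>.1 (by nlinarith [(b z h).2])⟩
  by_cases k : (z.2 : ℂ).im = 0
  · simp only [Set.indicator, Set.mem_ofPred_eq, k, (c z k).1, if_true] at w
    exact ⟨pow_eq_zero_iff two_ne_zero |>.1 (by nlinarith [(c z k).2]), by simp [k]⟩
  have p := mul_pos (abs_pos.2 h) (abs_pos.2 k)
  have := a z
  rw [neg_inj.1 u, le_mul_iff_one_le_right p] at this
  constructor <;> exact pow_eq_zero_iff two_ne_zero |>.1 (by nlinarith)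

noncomputable def F (x : ℝ × ℝ) : ℝ × ℝ :=
  (x.1 + 1 / 4 * cos x.2 * sin x.1, x.2 + -(1 / 4) * cos x.1 * sin x.2)

open ContinuousLinearMap in
noncomputable def B (x : ℝ × ℝ) : ℝ × ℝ →L[ℝ] ℝ × ℝ :=
  ((1 / 4 * (cos x.1 * cos x.2)) • fst ℝ ℝ ℝ - (1 / 4 * (sin x.1 * sin x.2)) • snd ℝ ℝ ℝ).prod
    ((1 / 4 * (sin x.1 * sin x.2)) • fst ℝ ℝ ℝ - (1 / 4 * (cos x.1 * cos x.2)) • snd ℝ ℝ ℝ)

lemma dF (x : ℝ × ℝ) : HasFDerivAt F (1 + B x) x :=
  ((hasFDerivAt_fst.add ((hasFDerivAt_snd.cos.const_mul _).mul hasFDerivAt_fst.sin)).prodMk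
    (hasFDerivAt_snd.add ((hasFDerivAt_fst.cos.const_mul _).mul hasFDerivAt_snd.sin))).congr_fderiv
    (by ext <;> simp [B] <;> ring)

lemma nB (x : ℝ × ℝ) : ‖B x‖ ≤ 1 / 2 := ContinuousLinearMap.opNorm_le_bound _ (by norm_num) fun w => by
  have q (a b c d y z : ℝ) (ha : |a| ≤ 1) (hb : |b| ≤ 1) (hc : |c| ≤ 1) (hd : |d| ≤ 1) (p : |y| ≤ ‖w‖)
      (r : |z| ≤ ‖w‖) : |1 / 4 * (a * b) * y - 1 / 4 * (c * d) * z| ≤ 1 / 2 * ‖w‖ := by
    refine (abs_sub _ _).trans ?_
    simp only [abs_mul]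
    rw [abs_of_pos (by norm_num : (0 : ℝ) < 1 / 4)]
    exact (add_le_add (by gcongr : _ ≤ 1 / 4 * (1 * 1) * ‖w‖) (by gcongr : _ ≤ 1 / 4 * (1 * 1) * ‖w‖)).trans_eq
      (by ring)
  exact max_le (q _ _ _ _ _ _ (abs_cos_le_one _) (abs_cos_le_one _) (abs_sin_le_one _)
    (abs_sin_le_one _) (norm_fst_le w) (norm_snd_le w)) (q _ _ _ _ _ _ (abs_sin_le_one _)
    (abs_sin_le_one _) (abs_cos_le_one _) (abs_cos_le_one _) (norm_fst_le w) (norm_snd_le w))

lemma grow {x : ℝ × ℝ} (h : cos x.2 * sin x.1 = 0) (k : cos x.1 * sin x.2 = 0) (n : ℕ) :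
    (17 / 16) ^ n ≤ 2 * ‖fderiv ℝ F^[n] x‖ ^ 2 := by
  rw [((dF x).iterate (by simp [F, mul_assoc, h, k]) n).fderiv]
  have e1 : cos x.1 * cos x.2 = 0 ∨ sin x.1 * sin x.2 = 0 := mul_eq_zero.1 (by
    linear_combination cos x.1 * sin x.2 * h)
  have e2 : (cos x.1 * cos x.2) ^ 2 + (sin x.1 * sin x.2) ^ 2 = 1 := by
    linear_combination (cos x.2 ^ 2 + sin x.2 ^ 2) * sin_sq_add_cos_sq x.1 + sin_sq_add_cos_sq x.2 -
      cos x.2 * sin x.1 * h - cos x.1 * sin x.2 * k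
  have m : ∀ w : ℝ × ℝ, 0 ≤ cos x.1 * cos x.2 * (w.1 ^ 2 - w.2 ^ 2) → (17 / 16) ^ n * (w.1 ^ 2 + w.2 ^ 2) ≤
      (((1 + B x) ^ n) w).1 ^ 2 + (((1 + B x) ^ n) w).2 ^ 2 := by
    induction n with
    | zero => simp
    | succ n ih =>
      intro w hw
      rw [pow_succ (1 + B x), pow_succ, mul_assoc]
      refine le_trans ?_ (ih ((1 + B x) w) ?_)
      · gcongr
        simp only [B]; simp
        generalize cos x.1 * cos x.2 = c at *; generalize sin x.1 * sin x.2 = s at *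
        rcases e1 with rfl | rfl <;> nlinarith [sq_nonneg w.1, sq_nonneg w.2]
      · simp only [B]; simp
        generalize cos x.1 * cos x.2 = c at *; generalize sin x.1 * sin x.2 = s at *
        rcases e1 with rfl | rfl <;> nlinarith [sq_nonneg w.1, sq_nonneg w.2]
  have (w : ℝ × ℝ) (hw : ‖w‖ = 1) : (((1 + B x) ^ n) w).1 ^ 2 + (((1 + B x) ^ n) w).2 ^ 2 ≤
      2 * ‖(1 + B x) ^ n‖ ^ 2 := by
    have := ((1 + B x) ^ n).le_opNorm w
    rw [hw, mul_one] at this
    nlinarith [sq_le_sq' (abs_le.1 ((norm_fst_le _).trans this)).1 (abs_le.1 ((norm_fst_le _).trans this)).2,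
      sq_le_sq' (abs_le.1 ((norm_snd_le _).trans this)).1 (abs_le.1 ((norm_snd_le _).trans this)).2]
  rcases le_total 0 (cos x.1 * cos x.2) with p | p
  · simpa using (m (1, 0) (by simpa using p)).trans (this _ (by simp))
  · simpa using (m (0, 1) (by simpa using p)).trans (this _ (by simp))

theorem result [MeasurableSpace T] [BorelSpace T] : ∃ (F : ℝ × ℝ ≃ ℝ × ℝ) (f : T → T), ContDiff ℝ ∞ F ∧ ContDiff ℝ ∞ F.symm ∧
    (∀ x (k l : ℤ), F (x + (k * (2 * π), l * (2 * π))) = F x + (k * (2 * π), l * (2 * π))) ∧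
    (∀ x, f (pr x) = pr (F x)) ∧ ∃ c : ℝ, 0 < c ∧
    ∀ ρ : Measure T, IsProbabilityMeasure ρ → MeasurePreserving f ρ ρ →
      ks f ρ = 0 ∧ ∀ᵐ z ∂ρ, ∀ x, pr x = z → c ≤ chi F x := by
  have L : LipschitzWith (1 / 2) (F - ⇑(ContinuousLinearEquiv.refl ℝ (ℝ × ℝ) : ℝ × ℝ →L[ℝ] ℝ × ℝ)) :=
    lipschitzWith_of_nnnorm_fderiv_le (𝕜 := ℝ) (fun x => ((dF x).sub
      (ContinuousLinearMap.hasFDerivAt _)).differentiableAt) fun x => by
        rw [((dF x).sub (ContinuousLinearMap.hasFDerivAt _)).fderiv, ← NNReal.coe_le_coe]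
        simpa [ContinuousLinearMap.one_def] using nB x
  let e := L.lipschitzOnWith.approximatesLinearOn.toHomeomorph F (Or.inr (by simp; norm_num))
  have cF : ContDiff ℝ ∞ F := by unfold F; fun_prop
  have l0 : 0 < log (17 / 16) := log_pos (by norm_num)
  refine ⟨e.toEquiv, f, cF, e.contDiff_symm (f₀' := fun x => ContinuousLinearEquiv.unitsEquiv ℝ _
    (Units.oneSub (-B x) (by rw [norm_neg]; linarith [nB x]))) (fun x => (dF x).congr_fderiv
    (by ext <;> simp)) cF, fun x k l => ?_, fun x => ?_, log (17 / 16) / 4, by positivity,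
    fun ρ _ hρ => ⟨le_antisymm (iSup_le fun k => iSup₂_le fun P _ => ?_) ?_,
    (fix hρ).mono fun z h x hx => le_liminf_of_le (h := ?_)⟩⟩
  · change F _ = F _ + _
    ext <;> simp [F] <;> ring
  · change _ = pr (F x)
    simp [f, pr, F, Circle.exp_add]
  · have : ∀ n, Hn f ρ P (n + 1) ≤ k := fun n => by
      rw [Hn, ← sum_subset (subset_univ (univ.image fun (j : Fin k) (_ : Fin (n + 1)) => j))]
      · exact (sum_le_card_nsmul _ _ 1 fun w _ => (negMulLog_le_one_sub_self measureReal_nonneg).trans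
          (sub_le_self _ measureReal_nonneg)).trans (by
            simpa using (card_image_le (s := univ) (f := fun (j : Fin k) (_ : Fin (n + 1)) => j)))
      intro w _ hw
      rw [(measureReal_eq_zero_iff).2 (measure_eq_zero_iff_ae_notMem.2 ((fix hρ).mono fun z h c =>
        hw (mem_image.2 ⟨P z, mem_univ _, funext fun i => ?_⟩))), negMulLog_zero]
      rw [← c i, Function.iterate_fixed (by simp [f, mul_assoc, h.1, h.2])]
    refine EReal.le_of_forall_lt_iff_le.1 fun r hr => limsup_le_of_le (h := ?_)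
    filter_upwards [(tendsto_const_div_atTop_nhds_zero_nat (k : ℝ)).eventually
      (gt_mem_nhds (EReal.coe_pos.1 hr)), eventually_gt_atTop 0] with n h n0
    obtain ⟨n, rfl⟩ := Nat.exists_eq_succ_of_ne_zero n0.ne'
    exact EReal.coe_le_coe ((div_le_div_of_nonneg_right (this n) (by positivity)).trans h.le)
  · refine le_iSup_of_le 1 (le_iSup₂_of_le (fun _ => 0) measurable_const (le_limsup_of_frequently_le
      (.of_forall fun n => ?_)))
    exact_mod_cast div_nonneg (sum_nonneg fun _ _ => negMulLog_nonneg measureReal_nonneg measureReal_le_one)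
      n.cast_nonneg
  · subst hx
    filter_upwards [(tendsto_const_div_atTop_nhds_zero_nat (log 2)).eventually
      (gt_mem_nhds (half_pos l0)), eventually_gt_atTop 0] with n p n0
    have n1 : (0 : ℝ) < n := by exact_mod_cast n0
    have g := (grow (x := x) (by simpa [pr] using h.1) (by simpa [pr] using h.2) n).trans
      (by gcongr; exact le_max_of_le_right (le_max_left _ _) : _ ≤ 2 * ext (fderiv ℝ F^[n] x) ^ 2)
    have := log_le_log (by positivity) g
    rw [log_mul two_ne_zero (pow_pos (a := ext _) (one_pos.trans_le (le_max_left _ _)) _).ne', log_pow, log_pow] at this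
    rw [div_lt_iff₀ n1] at p
    refine EReal.coe_le_coe ((le_div_iff₀ n1).2 ?_)
    change _ ≤ log (ext (fderiv ℝ F^[n] x))
    push_cast at this
    linarith

end Pool.Agent.Results.MP_794bd6_an.Cycles
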